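import Pool.Agent.H987.Z.StD

/-! Bootstrap along a vertical line: from `improve` to all heights. -/

set_option autoImplicit false

open scoped BigOperators InnerProductSpace Topology
open Filter MeasureTheory Set

namespace Pool.Agent.H539.Z987

open Pool.Agent.H987.Z
open Pool.Agent.Y662.TR (LL Cf Mw dv hu hu_nonneg)
open Pool.Agent.TH369.AN (Rz)

theorem g_cont {g : ℂ → ℂ} {α β c C : ℝ} (hF : Fr g α β c C) {E η1 : ℝ} (h1 : α ≤ E) (h2 : E ≤ β)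
    (hη : 0 < η1) : ContinuousOn (fun η : ℝ => g ⟨E, η⟩) (Icc η1 1) := by
  rw [Metric.continuousOn_iff]
  intro x hx δ hδ
  obtain ⟨r, hr, hr2⟩ := hF.mo (δ / 2) (by positivity)
  refine ⟨r, hr, fun y hy hxy => ?_⟩
  have h3 : ‖(⟨E, y⟩ : ℂ) - ⟨E, x⟩‖ = |y - x| := by
    have : (⟨E, y⟩ : ℂ) - ⟨E, x⟩ = ((y - x : ℝ) : ℂ) * Complex.I := by
      apply Complex.ext <;> simp
    rw [this, norm_mul, Complex.norm_I, mul_one, Complex.norm_real, Real.norm_eq_abs]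
  have h4 := hr2 ⟨E, y⟩ ⟨E, x⟩ h1 h2 (hη.trans_le hy.1) (by change y ≤ 2; linarith [hy.2]) h1 h2
    (hη.trans_le hx.1) (by change x ≤ 2; linarith [hx.2]) (by
      rw [h3]
      rw [Real.dist_eq] at hxy
      exact hxy.le)
  rw [dist_eq_norm]
  linarith

theorem gr_cont (hg : S_green) {ι : Type} (T : LL ι →L[ℂ] LL ι) (hT : Rs T) (x : ι) {E η1 : ℝ}
    (hη : 0 < η1) : ContinuousOn (fun η : ℝ => Gr T ⟨E, η⟩ x x) (Icc η1 1) := by
  rw [Metric.continuousOn_iff]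
  intro s hs δ hδ
  refine ⟨δ * η1 ^ 2, by positivity, fun y hy hxy => ?_⟩
  have h3 : ‖(⟨E, y⟩ : ℂ) - ⟨E, s⟩‖ = |y - s| := by
    have : (⟨E, y⟩ : ℂ) - ⟨E, s⟩ = ((y - s : ℝ) : ℂ) * Complex.I := by
      apply Complex.ext <;> simp
    rw [this, norm_mul, Complex.norm_I, mul_one, Complex.norm_real, Real.norm_eq_abs]
  have hy0 : 0 < y := hη.trans_le hy.1
  have hs0 : 0 < s := hη.trans_le hs.1
  have h4 := (hg ι T hT).2.2.2.2.2.2.1 ⟨E, y⟩ ⟨E, s⟩ x x hy0 hs0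
  rw [h3] at h4
  rw [Real.dist_eq] at hxy
  rw [dist_eq_norm]
  refine h4.trans_lt ?_
  change |y - s| / (y * s) < δ
  rw [div_lt_iff₀ (by positivity)]
  have h5 : η1 ^ 2 ≤ y * s := by
    rw [sq]
    exact mul_le_mul hy.1 hs.1 hη.le hy0.le
  calc |y - s| < δ * η1 ^ 2 := hxy
    _ ≤ δ * (y * s) := by gcongr

theorem f_cont (hg : S_green) (ht : S_tree) {g : ℂ → ℂ} {α β c C : ℝ} (hF : Fr g α β c C)
    {G : Type} [Group G] [Countable G] {n : ℕ} {b : G → ℝ} (hb : Sy b) (a : ℝ)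
    (ν : Measure ℝ) [IsProbabilityMeasure ν] {E η1 : ℝ} (h1 : α ≤ E) (h2 : E ≤ β) (hη : 0 < η1) :
    ContinuousOn (fun η : ℝ => ∫ V, hu (GB b a tr V ⟨E, η⟩) (g ⟨E, η⟩) ^ 2
      ∂(Measure.infinitePi fun _ : Vt G n => ν)) (Icc η1 1) := by
  obtain ⟨hT, hTn⟩ := ht G n b hb a tr
  obtain ⟨h, hh⟩ : ∃ h, h = N1 b + 2 * |a| * (n + 1) := ⟨_, rfl⟩
  rw [← hh] at hTn
  have hh0 : 0 ≤ h := (norm_nonneg _).trans hTn
  have hc0 := hF.c0
  obtain ⟨k, hk⟩ : ∃ k, k = η1 / (h + 1 + (|E| + 1)) ^ 2 := ⟨_, rfl⟩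
  have hk0 : 0 < k := by rw [hk]; positivity
  have hbd : ∀ η ∈ Icc η1 1, ∀ V : Vt G n → ℝ, ‖GB b a tr V ⟨E, η⟩‖ ≤ 1 / η1 ∧
      k ≤ (GB b a tr V ⟨E, η⟩).im ∧ 0 < (g ⟨E, η⟩).im ∧ c ≤ (g ⟨E, η⟩).im ∧
      ‖g ⟨E, η⟩‖ ≤ C := by
    intro η hη' V
    have hηp : 0 < η := hη.trans_le hη'.1
    have hX := bd_gr hg (TB b a tr) hT h hTn ⟨E, η⟩ hηp (oo : Vt G n)
    have e1 := hX.K V
    have e2 := hX.κ V
    have e3 := hF.lo ⟨E, η⟩ h1 h2 hηp (by change η ≤ 2; linarith [hη'.2])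
    have e4 := hF.up ⟨E, η⟩ h1 h2 hηp (by change η ≤ 2; linarith [hη'.2])
    refine ⟨e1.trans ?_, le_trans ?_ e2, hc0.trans_le e3, e3, e4⟩
    · change 1 / η ≤ 1 / η1
      exact one_div_le_one_div_of_le hη hη'.1
    · rw [hk]
      have e5 : ‖(⟨E, η⟩ : ℂ)‖ ≤ |E| + 1 := by
        refine (Complex.norm_le_abs_re_add_abs_im _).trans ?_
        change |E| + |η| ≤ |E| + 1
        rw [abs_of_pos hηp]
        linarith [hη'.2]
      have e6 : 0 ≤ ‖(⟨E, η⟩ : ℂ)‖ := norm_nonneg _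
      change η1 / (h + 1 + (|E| + 1)) ^ 2 ≤ η / (h + 1 + ‖(⟨E, η⟩ : ℂ)‖) ^ 2
      have e7 : 0 < h + 1 + ‖(⟨E, η⟩ : ℂ)‖ := by linarith
      gcongr
      exact hη'.1
  apply continuousOn_of_dominated
    (bound := fun _ => ((1 / η1 + C) ^ 2 / (k * c)) ^ 2)
  · intro η hη'
    have hηp : 0 < η := hη.trans_le hη'.1
    have hX := bd_gr hg (TB b a tr) hT h hTn ⟨E, η⟩ hηp (oo : Vt G n)
    exact ((hu_meas hX.me _).pow_const 2).aestronglyMeasurable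
  · intro η hη'
    refine Eventually.of_forall fun V => ?_
    obtain ⟨e1, e2, e3, e4, e5⟩ := hbd η hη' V
    obtain ⟨e6, e7⟩ := hu_bd hk0 e1 e2 e3
    rw [Real.norm_eq_abs, abs_of_nonneg (sq_nonneg _)]
    have e8 : 0 ≤ ‖g ⟨E, η⟩‖ := norm_nonneg _
    have e9 : (0 : ℝ) ≤ 1 / η1 := by positivity
    gcongr
    refine e7.trans ?_
    gcongr
  · exact integrable_const _
  · refine Eventually.of_forall fun V => ?_
    have hc1 := gr_cont hg (HV (TB b a tr) V) ((hg _ _ hT).1 V).1 (oo : Vt G n) (E := E) hη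
    have hc2 := g_cont hF h1 h2 hη
    have hc3 : ContinuousOn (fun η : ℝ => hu (GB b a tr V ⟨E, η⟩) (g ⟨E, η⟩)) (Icc η1 1) := by
      unfold hu
      refine ((hc1.sub hc2).norm.pow 2).div
        ((Complex.continuous_im.comp_continuousOn hc1).mul
          (Complex.continuous_im.comp_continuousOn hc2)) fun η hη' => ?_
      obtain ⟨e1, e2, e3, e4, e5⟩ := hbd η hη' V
      have e6 : 0 < (GB b a tr V ⟨E, η⟩).im := hk0.trans_le e2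
      exact (mul_pos e6 e3).ne'
    exact hc3.pow 2

theorem boot (h1 : S_hutri) (h2 : S_lln) (h3 : S_star) (hc : S_conv) (hg : S_green)
    (ht : S_tree) (hr : S_root) (hs : S_split) : Pool.Agent.H987.Z.S_boot := by
  intro g α' β' c C ε κ hF hε hε1 hκ hαβ'
  obtain ⟨M0, l0, hl0, himp⟩ := improve h1 h2 h3 hc hg ht hr hs g α' β' c C ε κ hF hε hε1 hκ hαβ'
  refine ⟨M0, l0, hl0, ?_⟩
  intro α β hα hβ G _ _ n hn b hb a ha hal ν _ e he0 he hPP hone z hz1 hz2 hz3 hz4 τ hτ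
  have he4 : e ≤ 1 / 4 := by nlinarith
  have himp' := himp α β hα hβ G n hn b hb a ha hal ν e he0 he4 hPP
  refine himp' z hz1 hz2 hz3 hz4 ?_ τ hτ
  by_contra hcon
  push Not at hcon
  obtain ⟨E, hE⟩ : ∃ E, E = z.re := ⟨_, rfl⟩
  obtain ⟨η1, hη1⟩ : ∃ η1, η1 = z.im := ⟨_, rfl⟩
  have hz : z = ⟨E, η1⟩ := by rw [hE, hη1]
  rw [hz] at hcon
  rw [← hη1] at hz3 hz4
  rw [← hE] at hz1 hz2
  have hcont := f_cont (n := n) hg ht hF hb a ν (show α' ≤ E by linarith)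
    (show E ≤ β' by linarith) hz3
  have hf1 : ∫ V, hu (GB b a tr V ⟨E, 1⟩) (g ⟨E, 1⟩) ^ 2
      ∂(Measure.infinitePi fun _ : Vt G n => ν) ≤ 1 / 100 := hone ⟨E, 1⟩ hz1 hz2 rfl
  have hiv := intermediate_value_Icc' hz4 hcont
  obtain ⟨η, hη, hηv⟩ := hiv (show (1 / 100 : ℝ) ∈ Icc _ _ from ⟨hf1, hcon.le⟩)
  simp only at hηv
  have hηp : 0 < η := hz3.trans_le hη.1
  have hfin := himp' ⟨E, η⟩ hz1 hz2 hηp hη.2 hηv.le tr (Or.inl rfl)
  rw [hηv] at hfin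
  linarith

end Pool.Agent.H539.Z987
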